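import Pool.Agent.Helper33.WF3

/-!
# The last entry of the `γ`-vector of ALL flag homology spheres of even dimension

Let the flag complex of the finite graph `G`, whose vertices are linearly ordered, be a real homology
sphere (`HSph`: all links, including the link of the empty face, have the real homology of spheres) of
dimension `d - 1`, `d = 2 m + 3`.  For cliques `S` and numbers `k` let `B k S` be a set of vertices which
contains the vertices `u` of the link of `S` such that the link of `S ∪ {u}` is not in the class
`AQ (2 k - 3)` of the starting library (`GoodFlags`; this is demanded only for `k ≥ 2` and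
`k + |S| ≥ m + 3`, and it is used only for nonempty `S`).  The class `AQ k` consists of graphs all of whose
full subcomplexes have no `ℓ²`-homology in the degrees above `k / 2`.  A clique `R` with `i` elements in
the link of a vertex `v` is bad with respect to `{v}` if for each initial segment `Q` of `R` with at least
two elements missing, all elements of `R \ Q` are in `B (i - |Q|) ({v} ∪ Q)`.  There is no condition on the
sets `B k S` themselves.
-/

set_option autoImplicit false

namespace Pool.Agent.Results.MP_19e880_co.LastEntryEvenDimension

open Pool.Agent.TH652.Above (HSph)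
open Pool.Agent.Helper33.BF
open Pool.Agent.Helper33.NSF (IsGammaVector)

/-- `γ_{(d-1)/2} ≥ - ∑_v (2^m f_{m+2}(v) + 2^{m-2} f_{m+4}(v) + 2^{m-4} f_{m+6}(v) + ...)`, where `f_i(v)` is
the number of the cliques with `i` elements in the link of the vertex `v` which are bad with respect to
`{v}`.  In particular `γ_{(d-1)/2} ≥ 0` if there are no such cliques for `i = m + 2, m + 4, ...`. -/
theorem result (m : ℕ) (V : Type) [Fintype V] [LinearOrder V] (G : SimpleGraph V)
    (hS : HSph (2 * m + 3) G) (B : ℕ → Finset V → Set V) (hB : GoodFlags G B (m + 3))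
    (γ : ℕ → ℚ) (hγ : IsGammaVector G (2 * m + 3) γ) :
    - ∑ v : V, ∑ j ∈ (Finset.range (m + 1)).filter Even,
      (2 : ℚ) ^ (m - j) * badNum G B {v} (Pool.Agent.W907.SM.lk G {v}) (m + 2 + j) ≤ γ (m + 1) := by
  refine le_trans (le_of_eq ?_) (gamma_last_flags G m hS B hB γ hγ)
  rw [Finset.mul_sum]
  congr 1
  refine Finset.sum_congr rfl fun v _ => ?_
  rw [linkEven, Finset.mul_sum]
  refine Finset.sum_congr rfl fun j hj => ?_
  have hj' : j ≤ m := Nat.lt_succ_iff.1 (Finset.mem_range.1 (Finset.mem_filter.1 hj).1)
  have e : (2 : ℚ) ^ (2 * m + 2) = 2 ^ (m - j) * 2 ^ (m + 2 + j) := by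
    rw [← pow_add]
    congr 1
    omega
  have h3 : (2 : ℚ) ^ (m + 2 + j) ≠ 0 := by positivity
  rw [e]
  field_simp

end Pool.Agent.Results.MP_19e880_co.LastEntryEvenDimension
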