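import Pool.Agent.Helper33.NS5
import Pool.Agent.Helper33.BF4

/-!
# The last entry of the `γ`-vector of ALL flag homology spheres of odd dimension, up to bad cliques

Let the flag complex of the finite graph `G`, whose vertices are linearly ordered, be a real homology
sphere (`HSph`: all links, including the link of the empty face, have the real homology of spheres) of
dimension `d - 1`, `d = 2 m + 2`.  For cliques `S` (possibly empty) and numbers `k` let `B k S` be a set of
vertices which contains the vertices `u` of the link of `S` such that the link of `S ∪ {u}` is not in the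
class `AQ (2 k - 3)` of the starting library (`GoodFlags`; this is demanded only for `k ≥ 2` and
`k + |S| ≥ m + 2`).  The class `AQ k` consists of graphs all of whose full subcomplexes have no
`ℓ²`-homology in the degrees above `k / 2`.  There is no condition on the sets `B k S` themselves.  A clique
`T` with `i` elements is bad (`Bad`) if for each initial segment `R` of `T` with at least two elements
missing, all elements of `T \ R` are in `B (i - |R|) R`; `badCl G B i` is the number of the bad cliques
with `i` elements.  (If `B k S` is the set of all vertices for nonempty `S`, these are the `i`-cliques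
contained in `B i ∅`.)
-/

set_option autoImplicit false

namespace Pool.Agent.Results.MP_19e880_co.TopEntryBadCliques

open Pool.Agent.TH652.Above (HSph)
open Pool.Agent.Helper33.BF
open Pool.Agent.Helper33.NSF (IsGammaVector gamma_top)

/-- `γ_{d/2} ≥ -(2^{m+1} f_{m+2} + 2^{m-1} f_{m+4} + 2^{m-3} f_{m+6} + ...)`, where `f_i` is the number of
the bad cliques with `i` elements.  In particular the Charney-Davis inequality `γ_{d/2} ≥ 0` holds if
there are no bad cliques with `m + 2, m + 4, ...` elements. -/
theorem result (m : ℕ) (V : Type) [Fintype V] [LinearOrder V] (G : SimpleGraph V)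
    (hS : HSph (2 * m + 2) G) (B : ℕ → Finset V → Set V) (hB : GoodFlags G B (m + 2))
    (γ : ℕ → ℚ) (hγ : IsGammaVector G (2 * m + 2) γ) :
    - ∑ j ∈ (Finset.range (m + 1)).filter Even,
      (2 : ℚ) ^ (m + 1 - j) * badCl G B (m + 2 + j) ≤ γ (m + 1) := by
  rw [gamma_top G m hS γ hγ]
  have h1 := charney_davis_flags G m hS B hB
  have h2 : (2 : ℚ) ^ (2 * m + 2) * (2 * flagEven G B m) =
      ∑ j ∈ (Finset.range (m + 1)).filter Even,
        (2 : ℚ) ^ (m + 1 - j) * badCl G B (m + 2 + j) := by
    unfold flagEven
    rw [Finset.mul_sum, Finset.mul_sum]
    refine Finset.sum_congr rfl fun j hj => ?_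
    have hj' : j ≤ m := Nat.lt_succ_iff.1 (Finset.mem_range.1 (Finset.mem_filter.1 hj).1)
    have e : (2 : ℚ) ^ (2 * m + 2) * 2 = 2 ^ (m + 1 - j) * 2 ^ (m + 2 + j) := by
      rw [← pow_succ, ← pow_add]
      congr 1
      omega
    have h3 : (2 : ℚ) ^ (m + 2 + j) ≠ 0 := by positivity
    field_simp
    linear_combination (badCl G B (m + 2 + j) : ℚ) * e
  rw [← h2, ← mul_neg]
  exact mul_le_mul_of_nonneg_left h1 (by positivity)

end Pool.Agent.Results.MP_19e880_co.TopEntryBadCliques
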